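import Pool.Agent.Helper70.EQ.Goals

/-! # Project EQ, packet PB -/

set_option autoImplicit false

namespace Pool.Agent.Helper94.EQ.PB

open Pool.Agent.Helper70.KN Pool.Agent.Helper70.EQ

theorem range_eq (r M : ℕ) (hM : M ≠ 0) (g : ℕ → ℝ) :
    ∑ j ∈ Finset.range (r + 1), g j * (j : ℝ) ^ M = ∑ j ∈ Finset.Icc 1 r, g j * (j : ℝ) ^ M := by
  have : Finset.range (r + 1) = insert 0 (Finset.Icc 1 r) := by
    ext j
    simp only [Finset.mem_range, Finset.mem_insert, Finset.mem_Icc]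
    omega
  rw [this, Finset.sum_insert (by simp)]
  simp [hM]

theorem T1_nonneg {N : ℕ} (V : Finset (Fin N → ℕ)) (k : ℕ) : 0 ≤ T V k := by
  unfold T X W
  positivity

theorem t (hLB : G_LB) (hUB : G_UB) (hML : G_ML) : G_PB := by
  intro N r V c hN hV hc
  have hc0 : (0 : ℝ) < c := by linarith
  have hT : 0 ≤ T V 1 := T1_nonneg V 1
  have e0 : sj r N = ∑ j ∈ Finset.Icc 1 r, (-1) ^ (r - j) * (r.choose j : ℝ) * (j : ℝ) ^ N :=
    range_eq r N (by omega) _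
  have e1 : sj r (N - 1) = ∑ j ∈ Finset.Icc 1 r, (-1) ^ (r - j) * (r.choose j : ℝ) * (j : ℝ) ^ (N - 1) :=
    range_eq r (N - 1) (by omega) _
  have e2 : tj r (N - 1) = ∑ j ∈ Finset.Icc 1 r, (r.choose j : ℝ) * (j : ℝ) ^ (N - 1) :=
    range_eq r (N - 1) (by omega) _
  have e3 : tj r (N - 2) = ∑ j ∈ Finset.Icc 1 r, (r.choose j : ℝ) * (j : ℝ) ^ (N - 2) :=
    range_eq r (N - 2) (by omega) _
  have key : ∀ j ∈ Finset.Icc 1 r, (N.factorial : ℝ) * ((-1) ^ (r - j) * (r.choose j : ℝ) * genus (mult j V)) ≤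
      (-1) ^ (r - j) * (r.choose j : ℝ) * (j : ℝ) ^ N * T V 0 -
        (N * ((-1) ^ (r - j) * (r.choose j : ℝ) * (j : ℝ) ^ (N - 1)) - (r.choose j : ℝ) * (j : ℝ) ^ (N - 1)) / 2 * T V 1 +
        ((N : ℝ) - 1) ^ 3 / (8 * c) * ((r.choose j : ℝ) * (j : ℝ) ^ (N - 2)) * T V 1 := by
    intro j hj
    have hj1 : 1 ≤ j := (Finset.mem_Icc.mp hj).1
    have hjr : (1 : ℝ) ≤ j := by exact_mod_cast hj1
    obtain ⟨hC, hTh, hTk⟩ := hML N V j hj1 hV.1
    have t0 := hTk 0 (by omega)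
    have t1 := hTk 1 (by omega)
    rw [Nat.sub_zero] at t0
    have lb := hLB N (by omega) (mult j V) hC
    have ub := hUB N (mult j V) (j * c) hN (hTh c hV) (by nlinarith)
    rw [t0, t1] at lb ub
    have hch : (0 : ℝ) ≤ (r.choose j : ℝ) := by positivity
    have hp : (j : ℝ) ^ (N - 1) = j * (j : ℝ) ^ (N - 2) := by
      rw [← pow_succ']
      congr 1
      omega
    have hq : ((N : ℝ) - 1) ^ 3 / (8 * (j * c)) * ((j : ℝ) ^ (N - 1) * T V 1) =
        ((N : ℝ) - 1) ^ 3 / (8 * c) * ((j : ℝ) ^ (N - 2) * T V 1) := by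
      rw [hp]
      field_simp
    rw [hq] at ub
    have hN1 : (0 : ℝ) ≤ (N : ℝ) - 1 := by
      have : (3 : ℝ) ≤ N := by exact_mod_cast hN
      linarith
    have hnn : 0 ≤ ((N : ℝ) - 1) ^ 3 / (8 * c) * ((j : ℝ) ^ (N - 2) * T V 1) := by positivity
    rcases Nat.even_or_odd (r - j) with h | h
    · rw [h.neg_one_pow]
      have := mul_le_mul_of_nonneg_left ub hch
      nlinarith
    · rw [h.neg_one_pow]
      have := mul_le_mul_of_nonneg_left lb hch
      have h2 := mul_nonneg hch hnn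
      nlinarith
  unfold genusCI
  rw [Finset.mul_sum]
  refine (Finset.sum_le_sum key).trans (le_of_eq ?_)
  rw [e0, e1, e2, e3]
  simp only [Finset.sum_add_distrib, Finset.sum_sub_distrib, Finset.mul_sum, Finset.sum_mul, Finset.sum_div, sub_mul, sub_div]

end Pool.Agent.Helper94.EQ.PB
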